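import Pool.Agent.H654R5.Stmts

set_option autoImplicit false
set_option linter.unusedSectionVars false

/-! H654-SALEM: TaskEnergy (helper999). -/

namespace Pool.H654R5.En

open Finset

variable {K : Type} [Field K] [Fintype K] [DecidableEq K] {d : ℕ}

theorem ne_zero_of_sph {a : Fin d → K} (h : ∑ i, a i ^ 2 = 1) : a ≠ 0 := by
  rintro rfl
  simp at h

/-- case all `c = 0` -/
theorem cnt0 (h2 : (2 : K) ≠ 0) (S : Finset (Fin d → K)) (hS : ∀ a ∈ S, ∑ i, a i ^ 2 = 1) (B : ℕ)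
    (hB : ∀ w : Fin d → K, w ≠ 0 → ∀ c : K, (S.filter fun a => ∑ i, w i * a i = c).card ≤ B) :
    ((S ×ˢ S ×ˢ S).filter fun t => t.1 + t.2.1 - t.2.2 ∈ S).card ≤ S.card ^ 2 * B + S.card ^ 2 := by
  have h1 : ((S ×ˢ S ×ˢ S).filter fun t => t.1 + t.2.1 - t.2.2 ∈ S).card
      ≤ ∑ a ∈ S, ∑ b ∈ S, (S.filter fun x => a + b - x ∈ S).card := by
    rw [Finset.card_filter, Finset.sum_product]
    refine Finset.sum_le_sum fun a _ => ?_
    rw [Finset.sum_product]
    refine Finset.sum_le_sum fun b _ => ?_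
    rw [Finset.card_filter]
  refine h1.trans ?_
  have h3 : ∀ a ∈ S, ∀ b ∈ S, (S.filter fun x => a + b - x ∈ S).card
      ≤ B + if b = -a then S.card else 0 := by
    intro a ha b hb
    split_ifs with h
    · exact (Finset.card_le_card (Finset.filter_subset _ _)).trans (Nat.le_add_left _ _)
    · rw [add_zero]
      have hw : a + b ≠ 0 := fun h0 => h (by rw [add_comm] at h0; exact eq_neg_of_add_eq_zero_left h0)
      refine le_trans (Finset.card_le_card ?_) (hB (a + b) hw ((∑ i, (a + b) i ^ 2) / 2))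
      intro x hx
      rw [Finset.mem_filter] at hx ⊢
      refine ⟨hx.1, ?_⟩
      have e1 := hS _ hx.1
      have e2 := hS _ hx.2
      have e3 : ∑ i, (a + b - x) i ^ 2 = ∑ i, (a + b) i ^ 2 - 2 * ∑ i, (a + b) i * x i
          + ∑ i, x i ^ 2 := by
        rw [Finset.mul_sum, ← Finset.sum_sub_distrib, ← Finset.sum_add_distrib]
        refine Finset.sum_congr rfl fun i _ => ?_
        simp only [Pi.sub_apply]
        ring
      rw [e1, e2] at e3
      field_simp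
      linear_combination e3
  calc ∑ a ∈ S, ∑ b ∈ S, (S.filter fun x => a + b - x ∈ S).card
      ≤ ∑ a ∈ S, ∑ b ∈ S, (B + if b = -a then S.card else 0) :=
        Finset.sum_le_sum fun a ha => Finset.sum_le_sum fun b hb => h3 a ha b hb
    _ ≤ ∑ a ∈ S, (S.card * B + S.card) := by
        refine Finset.sum_le_sum fun a _ => ?_
        rw [Finset.sum_add_distrib, Finset.sum_const, smul_eq_mul, Finset.sum_ite_eq']
        split_ifs <;> omega
    _ = S.card ^ 2 * B + S.card ^ 2 := by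
        rw [Finset.sum_const, smul_eq_mul]
        ring

/-- the solutions for fixed `c` -/
def Sol (S : Finset (Fin d → K)) (c1 c2 c3 : K) : Finset ((Fin d → K) × (Fin d → K) × (Fin d → K)) :=
  (S ×ˢ S ×ˢ S).filter fun t => t.1 + t.2.1 - t.2.2 ∈ S ∧
    ∀ i, c1 * t.1 i + c2 * t.2.1 i = c3 * t.2.2 i

theorem sol_any (S : Finset (Fin d → K)) (c1 c2 c3 : K) (h : c1 ≠ 0 ∨ c2 ≠ 0 ∨ c3 ≠ 0) :
    (Sol S c1 c2 c3).card ≤ S.card ^ 2 := by
  rw [pow_two, ← Finset.card_product]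
  rcases h with h | h | h
  · refine Finset.card_le_card_of_injOn (fun t => (t.2.1, t.2.2)) ?_ ?_
    · intro t ht
      simp only [Sol, coe_filter, mem_product, Set.mem_ofPred_eq] at ht
      simp [ht.1.2.1, ht.1.2.2]
    · rintro ⟨a, b, x⟩ h1 ⟨a', b', x'⟩ h2 e
      simp only [Sol, coe_filter, mem_product, Set.mem_ofPred_eq] at h1 h2
      simp only [Prod.mk.injEq] at e
      obtain ⟨rfl, rfl⟩ := e
      have : a = a' := by
        funext i
        have e1 := h1.2.2 i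
        have e2 := h2.2.2 i
        exact mul_left_cancel₀ h (by linear_combination e1 - e2)
      rw [this]
  · refine Finset.card_le_card_of_injOn (fun t => (t.1, t.2.2)) ?_ ?_
    · intro t ht
      simp only [Sol, coe_filter, mem_product, Set.mem_ofPred_eq] at ht
      simp [ht.1.1, ht.1.2.2]
    · rintro ⟨a, b, x⟩ h1 ⟨a', b', x'⟩ h2 e
      simp only [Sol, coe_filter, mem_product, Set.mem_ofPred_eq] at h1 h2
      simp only [Prod.mk.injEq] at e
      obtain ⟨rfl, rfl⟩ := e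
      have : b = b' := by
        funext i
        have e1 := h1.2.2 i
        have e2 := h2.2.2 i
        exact mul_left_cancel₀ h (by linear_combination e1 - e2)
      rw [this]
  · refine Finset.card_le_card_of_injOn (fun t => (t.1, t.2.1)) ?_ ?_
    · intro t ht
      simp only [Sol, coe_filter, mem_product, Set.mem_ofPred_eq] at ht
      simp [ht.1.1, ht.1.2.1]
    · rintro ⟨a, b, x⟩ h1 ⟨a', b', x'⟩ h2 e
      simp only [Sol, coe_filter, mem_product, Set.mem_ofPred_eq] at h1 h2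
      simp only [Prod.mk.injEq] at e
      obtain ⟨rfl, rfl⟩ := e
      have : x = x' := by
        funext i
        have e1 := h1.2.2 i
        have e2 := h2.2.2 i
        exact mul_left_cancel₀ h (by linear_combination e2 - e1)
      rw [this]

theorem quad_id (c1 c2 c3 : K) (a b x : Fin d → K) (h : ∀ i, c1 * a i + c2 * b i = c3 * x i)
    (ha : ∑ i, a i ^ 2 = 1) (hb : ∑ i, b i ^ 2 = 1) (hx : ∑ i, x i ^ 2 = 1) :
    c1 ^ 2 + c2 ^ 2 + 2 * c1 * c2 * ∑ i, a i * b i = c3 ^ 2 := by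
  have e : ∑ i, (c1 * a i + c2 * b i) ^ 2 = ∑ i, (c3 * x i) ^ 2 :=
    Finset.sum_congr rfl fun i _ => by rw [h i]
  have e1 : ∑ i, (c1 * a i + c2 * b i) ^ 2 = c1 ^ 2 * ∑ i, a i ^ 2 + c2 ^ 2 * ∑ i, b i ^ 2
      + 2 * c1 * c2 * ∑ i, a i * b i := by
    rw [Finset.mul_sum, Finset.mul_sum, Finset.mul_sum, ← Finset.sum_add_distrib,
      ← Finset.sum_add_distrib]
    refine Finset.sum_congr rfl fun i _ => ?_
    ring
  have e2 : ∑ i, (c3 * x i) ^ 2 = c3 ^ 2 * ∑ i, x i ^ 2 := by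
    rw [Finset.mul_sum]
    refine Finset.sum_congr rfl fun i _ => ?_
    ring
  rw [e1, e2, ha, hb, hx] at e
  linear_combination e

theorem sol_all (h2 : (2 : K) ≠ 0) (S : Finset (Fin d → K)) (hS : ∀ a ∈ S, ∑ i, a i ^ 2 = 1) (B : ℕ)
    (hB : ∀ w : Fin d → K, w ≠ 0 → ∀ c : K, (S.filter fun a => ∑ i, w i * a i = c).card ≤ B)
    (c1 c2 c3 : K) (h1 : c1 ≠ 0) (h2' : c2 ≠ 0) (h3 : c3 ≠ 0) :
    (Sol S c1 c2 c3).card ≤ S.card * B := by
  have e : (Sol S c1 c2 c3).card ≤ ((S ×ˢ S).filter fun t =>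
      ∑ i, t.1 i * t.2 i = (c3 ^ 2 - c1 ^ 2 - c2 ^ 2) / (2 * c1 * c2)).card := by
    refine Finset.card_le_card_of_injOn (fun t => (t.1, t.2.1)) ?_ ?_
    · intro t ht
      simp only [Sol, coe_filter, mem_product, Set.mem_ofPred_eq] at ht
      simp only [coe_filter, mem_product, Set.mem_ofPred_eq]
      refine ⟨⟨ht.1.1, ht.1.2.1⟩, ?_⟩
      have := quad_id c1 c2 c3 t.1 t.2.1 t.2.2 ht.2.2 (hS _ ht.1.1) (hS _ ht.1.2.1) (hS _ ht.1.2.2)
      rw [eq_div_iff (by simp [h1, h2', h2])]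
      linear_combination this
    · rintro ⟨a, b, x⟩ h1 ⟨a', b', x'⟩ h2 e
      simp only [Sol, coe_filter, mem_product, Set.mem_ofPred_eq] at h1 h2
      simp only [Prod.mk.injEq] at e
      obtain ⟨rfl, rfl⟩ := e
      have : x = x' := by
        funext i
        have e1 := h1.2.2 i
        have e2 := h2.2.2 i
        exact mul_left_cancel₀ h3 (by linear_combination e2 - e1)
      rw [this]
  refine e.trans ?_
  rw [Finset.card_filter, Finset.sum_product]
  calc _ ≤ ∑ a ∈ S, B := by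
        refine Finset.sum_le_sum fun a ha => ?_
        rw [← Finset.card_filter]
        exact hB a (ne_zero_of_sph (hS a ha)) _
    _ = S.card * B := by rw [Finset.sum_const, smul_eq_mul]

/-- bad tuples -/
def T (c1 c2 c3 : K) : Prop :=
  (c1 = 0 ∧ (c2 = c3 ∨ c2 = -c3)) ∨ (c2 = 0 ∧ (c1 = c3 ∨ c1 = -c3)) ∨
    (c3 = 0 ∧ (c1 = c2 ∨ c1 = -c2))

instance (c1 c2 c3 : K) : Decidable (T c1 c2 c3) := by unfold T; infer_instance

theorem sol_empty (S : Finset (Fin d → K)) (hS : ∀ a ∈ S, ∑ i, a i ^ 2 = 1) (c1 c2 c3 : K)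
    (h0 : c1 = 0 ∨ c2 = 0 ∨ c3 = 0) (hT : ¬ T c1 c2 c3) : (Sol S c1 c2 c3).card = 0 := by
  rw [Finset.card_eq_zero, Finset.eq_empty_iff_forall_notMem]
  rintro ⟨a, b, x⟩ ht
  simp only [Sol, mem_filter, mem_product] at ht
  obtain ⟨⟨ha, hb, hx⟩, -, h⟩ := ht
  have q := quad_id c1 c2 c3 a b x h (hS a ha) (hS b hb) (hS x hx)
  apply hT
  unfold T
  rcases h0 with rfl | rfl | rfl
  · left
    refine ⟨rfl, ?_⟩
    exact sq_eq_sq_iff_eq_or_eq_neg.1 (by linear_combination q)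
  · right; left
    refine ⟨rfl, ?_⟩
    exact sq_eq_sq_iff_eq_or_eq_neg.1 (by linear_combination q)
  · right; right
    refine ⟨rfl, ?_⟩
    have e : ∀ i, c1 * a i = - c2 * b i := fun i => by linear_combination h i
    have e1 : ∑ i, (c1 * a i) ^ 2 = ∑ i, (- c2 * b i) ^ 2 :=
      Finset.sum_congr rfl fun i _ => by rw [e i]
    have e2 : ∑ i, (c1 * a i) ^ 2 = c1 ^ 2 * ∑ i, a i ^ 2 := by
      rw [Finset.mul_sum]; exact Finset.sum_congr rfl fun i _ => by ring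
    have e3 : ∑ i, (- c2 * b i) ^ 2 = c2 ^ 2 * ∑ i, b i ^ 2 := by
      rw [Finset.mul_sum]; exact Finset.sum_congr rfl fun i _ => by ring
    rw [e2, e3, hS a ha, hS b hb] at e1
    exact sq_eq_sq_iff_eq_or_eq_neg.1 (by linear_combination e1)

/-- the bound for a fixed `c` -/
theorem sol_le (h2 : (2 : K) ≠ 0) (S : Finset (Fin d → K)) (hS : ∀ a ∈ S, ∑ i, a i ^ 2 = 1) (B : ℕ)
    (hB : ∀ w : Fin d → K, w ≠ 0 → ∀ c : K, (S.filter fun a => ∑ i, w i * a i = c).card ≤ B)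
    (c1 c2 c3 : K) :
    (Sol S c1 c2 c3).card ≤ (if c1 = 0 ∧ c2 = 0 ∧ c3 = 0 then S.card ^ 2 * B + S.card ^ 2 else 0)
      + (if T c1 c2 c3 then S.card ^ 2 else 0) + S.card * B := by
  by_cases h : c1 = 0 ∧ c2 = 0 ∧ c3 = 0
  · rw [if_pos h]
    refine le_trans (Finset.card_le_card ?_) ((cnt0 h2 S hS B hB).trans ?_)
    · intro t ht
      simp only [Sol, mem_filter] at ht ⊢
      exact ⟨ht.1, ht.2.1⟩
    · omega
  · rw [if_neg h, zero_add]
    by_cases hT : T c1 c2 c3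
    · rw [if_pos hT]
      refine (sol_any S c1 c2 c3 ?_).trans (Nat.le_add_right _ _)
      tauto
    · rw [if_neg hT, zero_add]
      by_cases h0 : c1 = 0 ∨ c2 = 0 ∨ c3 = 0
      · rw [sol_empty S hS c1 c2 c3 h0 hT]
        exact Nat.zero_le _
      · push Not at h0
        exact sol_all h2 S hS B hB c1 c2 c3 h0.1 h0.2.1 h0.2.2

open Pool.H654R5

theorem quad_le (J : Finset K) (S : Finset (Fin d → K)) :
    Quad J S ≤ ∑ j ∈ J ×ˢ J ×ˢ J ×ˢ J,
      (Sol S (j.1 - j.2.2.2) (j.2.1 - j.2.2.2) (j.2.2.1 - j.2.2.2)).card := by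
  rw [← Finset.card_sigma]
  unfold Quad
  refine Finset.card_le_card_of_injOn (fun x =>
    (⟨(x.1.1, x.2.1.1, x.2.2.1.1, x.2.2.2.1), (x.1.2, x.2.1.2, x.2.2.1.2)⟩ :
      (_ : K × K × K × K) × ((Fin d → K) × (Fin d → K) × (Fin d → K)))) ?_ ?_
  · rintro ⟨⟨j1, a1⟩, ⟨j2, a2⟩, ⟨j3, a3⟩, ⟨j4, a4⟩⟩ hx
    rw [Finset.mem_coe, Finset.mem_filter] at hx
    simp only [mem_product] at hx
    obtain ⟨⟨⟨hj1, ha1⟩, ⟨hj2, ha2⟩, ⟨hj3, ha3⟩, ⟨hj4, ha4⟩⟩, e1, e2⟩ := hx
    rw [Finset.mem_coe, Finset.mem_sigma]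
    simp only [mem_product, Sol, mem_filter]
    have e3 : a1 + a2 - a3 = a4 := by rw [e1]; abel
    refine ⟨⟨hj1, hj2, hj3, hj4⟩, ⟨ha1, ha2, ha3⟩, by rw [e3]; exact ha4, fun i => ?_⟩
    have e4 := congrFun e1 i
    have e5 := congrFun e2 i
    simp only [Pi.add_apply, Pi.smul_apply, smul_eq_mul] at e4 e5
    linear_combination e5 - j4 * e4
  · rintro ⟨⟨j1, a1⟩, ⟨j2, a2⟩, ⟨j3, a3⟩, ⟨j4, a4⟩⟩ hx
      ⟨⟨j1', a1'⟩, ⟨j2', a2'⟩, ⟨j3', a3'⟩, ⟨j4', a4'⟩⟩ hx' h
    rw [Finset.mem_coe, Finset.mem_filter] at hx hx'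
    have e1 := hx.2.1
    have e1' := hx'.2.1
    simp only [Sigma.mk.injEq, heq_eq_eq, Prod.mk.injEq] at h
    obtain ⟨⟨rfl, rfl, rfl, rfl⟩, rfl, rfl, rfl⟩ := h
    have : a4 = a4' := by
      simp only at e1 e1'
      exact add_left_cancel (e1.symm.trans e1')
    rw [this]

theorem cntZ (J : Finset K) :
    ((J ×ˢ J ×ˢ J ×ˢ J).filter fun j => j.1 - j.2.2.2 = 0 ∧ j.2.1 - j.2.2.2 = 0 ∧
      j.2.2.1 - j.2.2.2 = 0).card ≤ J.card := by
  refine Finset.card_le_card_of_injOn (fun j => j.2.2.2) ?_ ?_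
  · rintro ⟨j1, j2, j3, j4⟩ hx
    rw [Finset.mem_coe, Finset.mem_filter] at hx
    simp only [mem_product] at hx
    exact hx.1.2.2.2
  · rintro ⟨j1, j2, j3, j4⟩ hx ⟨j1', j2', j3', j4'⟩ hx' h
    rw [Finset.mem_coe, Finset.mem_filter] at hx hx'
    simp only [sub_eq_zero] at hx hx' h
    obtain ⟨-, h1, h2, h3⟩ := hx
    obtain ⟨-, h1', h2', h3'⟩ := hx'
    rw [h1, h2, h3, h1', h2', h3', h]

theorem cntT (J : Finset K) :
    ((J ×ˢ J ×ˢ J ×ˢ J).filter fun j => T (j.1 - j.2.2.2) (j.2.1 - j.2.2.2)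
      (j.2.2.1 - j.2.2.2)).card ≤ 6 * J.card ^ 2 := by
  have hsub : ((J ×ˢ J ×ˢ J ×ˢ J).filter fun j => T (j.1 - j.2.2.2) (j.2.1 - j.2.2.2)
      (j.2.2.1 - j.2.2.2)) ⊆
      (J ×ˢ J).image (fun u => (u.2, u.1, u.1, u.2)) ∪
      ((J ×ˢ J).image (fun u => (u.2, 2 * u.2 - u.1, u.1, u.2)) ∪
      ((J ×ˢ J).image (fun u => (u.1, u.2, u.1, u.2)) ∪
      ((J ×ˢ J).image (fun u => (2 * u.2 - u.1, u.2, u.1, u.2)) ∪
      ((J ×ˢ J).image (fun u => (u.1, u.1, u.2, u.2)) ∪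
      ((J ×ˢ J).image (fun u => (2 * u.2 - u.1, u.1, u.2, u.2))))))) := by
    rintro ⟨j1, j2, j3, j4⟩ hx
    rw [Finset.mem_filter] at hx
    simp only [mem_product] at hx
    obtain ⟨⟨h1, h2, h3, h4⟩, hT⟩ := hx
    simp only [mem_union, mem_image, mem_product, Prod.mk.injEq, Prod.exists]
    unfold T at hT
    rcases hT with ⟨e, e' | e'⟩ | ⟨e, e' | e'⟩ | ⟨e, e' | e'⟩
    · left
      exact ⟨j3, j4, ⟨h3, h4⟩, by linear_combination -e, by linear_combination -e', rfl, rfl⟩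
    · right; left
      exact ⟨j3, j4, ⟨h3, h4⟩, by linear_combination -e, by linear_combination -e', rfl, rfl⟩
    · right; right; left
      exact ⟨j3, j4, ⟨h3, h4⟩, by linear_combination -e', by linear_combination -e, rfl, rfl⟩
    · right; right; right; left
      exact ⟨j3, j4, ⟨h3, h4⟩, by linear_combination -e', by linear_combination -e, rfl, rfl⟩
    · right; right; right; right; left
      exact ⟨j2, j4, ⟨h2, h4⟩, by linear_combination -e', rfl, by linear_combination -e, rfl⟩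
    · right; right; right; right; right
      exact ⟨j2, j4, ⟨h2, h4⟩, by linear_combination -e', rfl, by linear_combination -e, rfl⟩
  have hi : ∀ f : K × K → K × K × K × K, ((J ×ˢ J).image f).card ≤ J.card ^ 2 := by
    intro f
    refine Finset.card_image_le.trans ?_
    rw [Finset.card_product, pow_two]
  refine (Finset.card_le_card hsub).trans ?_
  have u := fun (A B : Finset (K × K × K × K)) => Finset.card_union_le A B
  refine (u _ _).trans ?_
  refine (Nat.add_le_add (hi _) ((u _ _).trans (Nat.add_le_add (hi _) ((u _ _).trans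
    (Nat.add_le_add (hi _) ((u _ _).trans (Nat.add_le_add (hi _) ((u _ _).trans
      (Nat.add_le_add (hi _) (hi _)))))))))).trans ?_
  omega

theorem energy_core (hd : 3 ≤ d) (h2 : (2 : K) ≠ 0)
    (hB : ∀ w : Fin d → K, w ≠ 0 → ∀ c : K,
      ((Sph d K).filter (fun a => ∑ i, w i * a i = c)).card ≤ 3 * Fintype.card K ^ (d - 2))
    (hS : (Sph d K).card ≤ 2 * Fintype.card K ^ (d - 1)) (J : Finset K) :
    Quad J (Sph d K) ≤ 100 * (J.card * Fintype.card K ^ (3 * d - 4) +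
      J.card ^ 2 * Fintype.card K ^ (2 * d - 2) + J.card ^ 4 * Fintype.card K ^ (2 * d - 3)) := by
  obtain ⟨m, rfl⟩ := Nat.exists_eq_add_of_le' hd
  set q := Fintype.card K with hq
  have hq1 : 1 ≤ q := Fintype.card_pos
  set B := 3 * q ^ (m + 3 - 2) with hBd
  set s := (Sph (m + 3) K).card with hs
  have hS1 : ∀ a ∈ Sph (m + 3) K, ∑ i, a i ^ 2 = 1 := fun a ha => by
    rw [Sph, Finset.mem_filter] at ha
    exact ha.2
  have h1 : Quad J (Sph (m + 3) K) ≤ J.card * (s ^ 2 * B + s ^ 2) + 6 * J.card ^ 2 * s ^ 2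
      + J.card ^ 4 * (s * B) := by
    refine (quad_le J _).trans ?_
    refine (Finset.sum_le_sum fun j _ => sol_le h2 (Sph (m + 3) K) hS1 B hB _ _ _).trans ?_
    rw [Finset.sum_add_distrib, Finset.sum_add_distrib]
    refine Nat.add_le_add (Nat.add_le_add ?_ ?_) ?_
    · rw [← Finset.sum_filter, Finset.sum_const, smul_eq_mul]
      exact Nat.mul_le_mul_right _ (cntZ J)
    · rw [← Finset.sum_filter, Finset.sum_const, smul_eq_mul]
      exact Nat.mul_le_mul_right _ (cntT J)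
    · rw [Finset.sum_const, smul_eq_mul, Finset.card_product, Finset.card_product,
        Finset.card_product]
      exact le_of_eq (by ring)
  have e1 : s ^ 2 ≤ 4 * q ^ (2 * (m + 3) - 2) := by
    calc s ^ 2 ≤ (2 * q ^ (m + 3 - 1)) ^ 2 := Nat.pow_le_pow_left hS 2
      _ = 4 * q ^ (2 * (m + 3) - 2) := by
        rw [mul_pow, ← pow_mul]
        congr 2
        omega
  have e2 : s ^ 2 * B ≤ 12 * q ^ (3 * (m + 3) - 4) := by
    calc s ^ 2 * B ≤ (4 * q ^ (2 * (m + 3) - 2)) * (3 * q ^ (m + 3 - 2)) :=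
          Nat.mul_le_mul_right _ e1
      _ = 12 * (q ^ (2 * (m + 3) - 2) * q ^ (m + 3 - 2)) := by ring
      _ = 12 * q ^ (3 * (m + 3) - 4) := by
        rw [← pow_add]
        congr 2
        omega
  have e3 : s ^ 2 ≤ 4 * q ^ (3 * (m + 3) - 4) :=
    e1.trans (Nat.mul_le_mul_left _ (Nat.pow_le_pow_right hq1 (by omega)))
  have e4 : s * B ≤ 6 * q ^ (2 * (m + 3) - 3) := by
    calc s * B ≤ (2 * q ^ (m + 3 - 1)) * (3 * q ^ (m + 3 - 2)) := Nat.mul_le_mul_right _ hS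
      _ = 6 * (q ^ (m + 3 - 1) * q ^ (m + 3 - 2)) := by ring
      _ = 6 * q ^ (2 * (m + 3) - 3) := by
        rw [← pow_add]
        congr 2
        omega
  have f1 : J.card * (s ^ 2 * B + s ^ 2) ≤ 16 * (J.card * q ^ (3 * (m + 3) - 4)) := by
    calc J.card * (s ^ 2 * B + s ^ 2) ≤ J.card * (16 * q ^ (3 * (m + 3) - 4)) :=
          Nat.mul_le_mul_left _ (by omega)
      _ = _ := by ring
  have f2 : 6 * J.card ^ 2 * s ^ 2 ≤ 24 * (J.card ^ 2 * q ^ (2 * (m + 3) - 2)) := by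
    calc 6 * J.card ^ 2 * s ^ 2 ≤ 6 * J.card ^ 2 * (4 * q ^ (2 * (m + 3) - 2)) :=
          Nat.mul_le_mul_left _ e1
      _ = _ := by ring
  have f3 : J.card ^ 4 * (s * B) ≤ 6 * (J.card ^ 4 * q ^ (2 * (m + 3) - 3)) := by
    calc J.card ^ 4 * (s * B) ≤ J.card ^ 4 * (6 * q ^ (2 * (m + 3) - 3)) :=
          Nat.mul_le_mul_left _ e4
      _ = _ := by ring
  omega

theorem taskEnergy : TaskEnergy := by
  intro hP d hd K _ _ _ h2 hS J
  exact energy_core hd h2 (fun w hw c => hP d hd K h2 w hw c) hS J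

end Pool.H654R5.En
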