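import Pool.Agent.H654R5.Stmts

set_option autoImplicit false

open Finset

namespace Pool.H654R5.PlaneH133

variable {K : Type} [Field K] [Fintype K] [DecidableEq K] {n : ℕ}

noncomputable def QQ (u : Fin n → K) (c : K) : MvPolynomial (Fin n) K :=
  ∑ m, (MvPolynomial.X m) ^ 2 +
    (MvPolynomial.C c - ∑ m, MvPolynomial.C (u m) * MvPolynomial.X m) ^ 2 - 1

lemma eval_QQ (u : Fin n → K) (c : K) (b : Fin n → K) :
    MvPolynomial.eval b (QQ u c) = ∑ m, b m ^ 2 + (c - ∑ m, u m * b m) ^ 2 - 1 := by
  simp [QQ]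

lemma deg_QQ (u : Fin n → K) (c : K) : (QQ u c).totalDegree ≤ 2 := by
  unfold QQ
  refine (MvPolynomial.totalDegree_sub _ _).trans (max_le ?_ (by simp))
  refine (MvPolynomial.totalDegree_add _ _).trans (max_le ?_ ?_)
  · refine MvPolynomial.totalDegree_finsetSum_le fun m _ => ?_
    exact (MvPolynomial.totalDegree_pow _ _).trans (by simp)
  · refine (MvPolynomial.totalDegree_pow _ _).trans ?_
    have : (MvPolynomial.C c - ∑ m, MvPolynomial.C (u m) * MvPolynomial.X m :
        MvPolynomial (Fin n) K).totalDegree ≤ 1 := by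
      refine (MvPolynomial.totalDegree_sub _ _).trans (max_le (by simp) ?_)
      refine MvPolynomial.totalDegree_finsetSum_le fun m _ => ?_
      refine (MvPolynomial.totalDegree_mul _ _).trans ?_
      simp
    omega

lemma QQ_ne (h2 : (2 : K) ≠ 0) (u : Fin n → K) (c : K) (i j : Fin n) (hij : i ≠ j) :
    QQ u c ≠ 0 := by
  intro hQ
  have hev : ∀ b : Fin n → K, ∑ m, b m ^ 2 + (c - ∑ m, u m * b m) ^ 2 - 1 = 0 := by
    intro b
    rw [← eval_QQ, hQ, map_zero]
  have key : ∀ v : Fin n → K, ∑ m, v m ^ 2 + (∑ m, u m * v m) ^ 2 = 0 := by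
    intro v
    have e0 := hev 0
    have e1 := hev v
    have e2 := hev (-v)
    simp only [Pi.zero_apply, Pi.neg_apply, mul_neg, Finset.sum_neg_distrib, neg_sq, mul_zero,
      Finset.sum_const_zero, sub_zero, ne_eq, OfNat.ofNat_ne_zero, not_false_eq_true, zero_pow,
      zero_add] at e0 e1 e2
    have : 2 * (∑ m, v m ^ 2 + (∑ m, u m * v m) ^ 2) = 0 := by
      linear_combination e1 + e2 - 2 * e0
    rcases mul_eq_zero.mp this with h | h
    · exact absurd h h2
    · exact h
  have k1 := key (Pi.single i 1)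
  have k2 := key (Pi.single j 1)
  have k3 := key (Pi.single i 1 + Pi.single j 1)
  have s1 : ∀ i : Fin n, ∑ m, (Pi.single i (1 : K) : Fin n → K) m ^ 2 = 1 := by
    intro i
    rw [Finset.sum_eq_single i]
    · simp
    · intro b _ hb
      simp [Pi.single_eq_of_ne hb]
    · simp
  have s2 : ∀ i : Fin n, ∑ m, u m * (Pi.single i (1 : K) : Fin n → K) m = u i := by
    intro i
    rw [Finset.sum_eq_single i]
    · simp
    · intro b _ hb
      simp [Pi.single_eq_of_ne hb]
    · simp
  have s3 : ∑ m, (Pi.single i (1 : K) : Fin n → K) m * (Pi.single j (1 : K) : Fin n → K) m = 0 := by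
    refine Finset.sum_eq_zero fun m _ => ?_
    by_cases hm : m = i
    · subst hm
      rw [Pi.single_eq_of_ne hij, mul_zero]
    · rw [Pi.single_eq_of_ne hm, zero_mul]
  have s4 : ∑ m, ((Pi.single i (1 : K) + Pi.single j (1 : K) : Fin n → K) m) ^ 2 = 2 := by
    have : ∀ m, ((Pi.single i (1 : K) + Pi.single j (1 : K) : Fin n → K) m) ^ 2 =
        (Pi.single i (1 : K) : Fin n → K) m ^ 2 + (Pi.single j (1 : K) : Fin n → K) m ^ 2 +
        2 * ((Pi.single i (1 : K) : Fin n → K) m * (Pi.single j (1 : K) : Fin n → K) m) := by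
      intro m
      rw [Pi.add_apply]
      ring
    simp only [this, Finset.sum_add_distrib, ← Finset.mul_sum, s1, s3]
    norm_num
  have s5 : ∑ m, u m * ((Pi.single i (1 : K) + Pi.single j (1 : K) : Fin n → K) m) = u i + u j := by
    simp only [Pi.add_apply, mul_add, Finset.sum_add_distrib, s2]
  rw [s1, s2] at k1 k2
  rw [s4, s5] at k3
  have h3 : 2 * (u i * u j) = 0 := by linear_combination k3 - k1 - k2
  rcases mul_eq_zero.mp h3 with h | h
  · exact h2 h
  · rcases mul_eq_zero.mp h with h | h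
    · rw [h] at k1
      norm_num at k1
    · rw [h] at k2
      norm_num at k2

lemma zeros (h2 : (2 : K) ≠ 0) (u : Fin n → K) (c : K) (i j : Fin n) (hij : i ≠ j) :
    (univ.filter fun b : Fin n → K => ∑ m, b m ^ 2 + (c - ∑ m, u m * b m) ^ 2 - 1 = 0).card ≤
      2 * Fintype.card K ^ (n - 1) := by
  have hn : 1 ≤ n := by
    have := i.2
    omega
  have h := MvPolynomial.schwartz_zippel_totalDegree (QQ_ne h2 u c i j hij) (univ : Finset K)
  have hq : 0 < Fintype.card K := Fintype.card_pos
  rw [Finset.card_univ] at h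
  have heq : (univ.filter fun b : Fin n → K => ∑ m, b m ^ 2 + (c - ∑ m, u m * b m) ^ 2 - 1 = 0) =
      ((Fintype.piFinset fun _ => (univ : Finset K)).filter
        fun b : Fin n → K => MvPolynomial.eval b (QQ u c) = 0) := by
    ext b
    simp [eval_QQ]
  rw [heq]
  have hq' : (0 : ℚ≥0) < (Fintype.card K : ℚ≥0) := by exact_mod_cast hq
  rw [div_le_div_iff₀ (by positivity) hq'] at h
  have h3 : (((Fintype.piFinset fun _ => (univ : Finset K)).filter
        fun b : Fin n → K => MvPolynomial.eval b (QQ u c) = 0).card : ℕ) * Fintype.card K ≤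
      (QQ u c).totalDegree * Fintype.card K ^ n := by exact_mod_cast h
  have h4 : (((Fintype.piFinset fun _ => (univ : Finset K)).filter
        fun b : Fin n → K => MvPolynomial.eval b (QQ u c) = 0).card : ℕ) * Fintype.card K ≤
      (2 * Fintype.card K ^ (n - 1)) * Fintype.card K := by
    calc _ ≤ (QQ u c).totalDegree * Fintype.card K ^ n := h3
      _ ≤ 2 * Fintype.card K ^ n := Nat.mul_le_mul_right _ (deg_QQ u c)
      _ = (2 * Fintype.card K ^ (n - 1)) * Fintype.card K := by
        rw [mul_assoc, ← pow_succ, Nat.sub_add_cancel hn]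
  exact Nat.le_of_mul_le_mul_right h4 hq

/-- plane sections of the sphere, odd characteristic -/
theorem plane2 : ∀ d : ℕ, 3 ≤ d → ∀ (K : Type) [Field K] [Fintype K] [DecidableEq K],
    (2 : K) ≠ 0 → ∀ w : Fin d → K, w ≠ 0 → ∀ c : K,
    ((Sph d K).filter (fun a => ∑ i, w i * a i = c)).card ≤ 2 * Fintype.card K ^ (d - 2) := by
  intro d hd K _ _ _ h2 w hw c
  obtain ⟨n, rfl⟩ : ∃ n, d = n + 1 := ⟨d - 1, by omega⟩
  obtain ⟨k, hk⟩ : ∃ k, w k ≠ 0 := by
    by_contra hcon
    push Not at hcon
    exact hw (funext hcon)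
  have hz := zeros (K := K) (n := n) h2 (fun m => w (k.succAbove m) / w k) (c / w k)
    ⟨0, by omega⟩ ⟨1, by omega⟩ (by simp)
  rw [show n + 1 - 2 = n - 1 by omega]
  refine le_trans (Finset.card_le_card_of_injOn (fun a m => a (k.succAbove m)) ?_ ?_) hz
  · intro a ha
    simp only [Sph, Finset.coe_filter, Finset.mem_filter, Finset.mem_univ, true_and,
      Set.mem_setOf_eq] at ha ⊢
    obtain ⟨h1, h3⟩ := ha
    rw [Fin.sum_univ_succAbove _ k] at h1 h3
    have hak : a k = c / w k - ∑ m, w (k.succAbove m) / w k * a (k.succAbove m) := by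
      have : ∑ m, w (k.succAbove m) / w k * a (k.succAbove m) =
          (∑ m, w (k.succAbove m) * a (k.succAbove m)) / w k := by
        rw [Finset.sum_div]
        refine Finset.sum_congr rfl fun m _ => ?_
        ring
      rw [this, ← h3]
      field_simp
      ring
    rw [← hak]
    linear_combination h1
  · intro a ha b hb hab
    simp only [Sph, Finset.coe_filter, Finset.mem_filter, Finset.mem_univ, true_and,
      Set.mem_setOf_eq] at ha hb
    have hs : ∀ m, a (k.succAbove m) = b (k.succAbove m) := fun m => congrFun hab m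
    have h3 := ha.2
    have h4 := hb.2
    rw [Fin.sum_univ_succAbove _ k] at h3 h4
    have hkk : w k * a k = w k * b k := by
      have : ∑ m, w (k.succAbove m) * a (k.succAbove m) =
          ∑ m, w (k.succAbove m) * b (k.succAbove m) :=
        Finset.sum_congr rfl fun m _ => by rw [hs m]
      rw [this] at h3
      exact add_right_cancel (h3.trans h4.symm)
    have hk2 : a k = b k := mul_left_cancel₀ hk hkk
    funext x
    rcases Fin.eq_self_or_eq_succAbove k x with rfl | ⟨m, rfl⟩
    · exact hk2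
    · exact hs m

theorem plane3 : ∀ d : ℕ, 3 ≤ d → ∀ (K : Type) [Field K] [Fintype K] [DecidableEq K],
    (2 : K) ≠ 0 → ∀ w : Fin d → K, w ≠ 0 → ∀ c : K,
    ((Sph d K).filter (fun a => ∑ i, w i * a i = c)).card ≤ 3 * Fintype.card K ^ (d - 2) := by
  intro d hd K _ _ _ h2 w hw c
  exact (plane2 d hd K h2 w hw c).trans (Nat.mul_le_mul_right _ (by norm_num))

end Pool.H654R5.PlaneH133
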