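import Mathlib

set_option autoImplicit false

/-!
# Distance sets of (4,s)-Salem sets over `F_{p^2}` (MP_546591_co): statements of the tasks
-/

open Finset

namespace Pool.H654R5

/-- additive energy `Λ₄(E)` -/
def energy {G : Type} [AddCommGroup G] [DecidableEq G] (E : Finset G) : ℕ :=
  ((E ×ˢ E ×ˢ E ×ˢ E).filter (fun s => s.1 + s.2.1 = s.2.2.1 + s.2.2.2)).card

/-- distance set -/
def distSet {F : Type} [Field F] [DecidableEq F] {d : ℕ} (E : Finset (Fin d → F)) : Finset F :=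
  (E ×ˢ E).image (fun s => ∑ i, (s.1 i - s.2 i) ^ 2)

/-- `Good d s α`: `(4,s)`-Salem sets with at least `C q^α` elements have at least `c q` distances -/
def Good (d : ℕ) (s α : ℝ) : Prop :=
  ∀ C0 : ℝ, 0 < C0 → ∃ C c : ℝ, 0 < C ∧ 0 < c ∧
    ∀ (F : Type) [Field F] [Fintype F] [DecidableEq F], (2 : F) ≠ 0 →
      ∀ E : Finset (Fin d → F),
        (energy E : ℝ) ≤ C0 * ((Fintype.card F : ℝ) ^ (-(d : ℝ)) * (E.card : ℝ) ^ 4 +
          (E.card : ℝ) ^ (4 - 4 * s)) →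
        C * (Fintype.card F : ℝ) ^ α ≤ (E.card : ℝ) →
        c * (Fintype.card F : ℝ) ≤ ((distSet E).card : ℝ)

/-- the unit sphere of `K^d` -/
def Sph (d : ℕ) (K : Type) [Field K] [Fintype K] [DecidableEq K] : Finset (Fin d → K) :=
  Finset.univ.filter (fun a => ∑ i, a i ^ 2 = 1)

/-- number of solutions of `a1+a2=a3+a4`, `j1 a1+j2 a2=j3 a3+j4 a4` -/
def Quad {K : Type} [Field K] [DecidableEq K] {d : ℕ} (J : Finset K) (S : Finset (Fin d → K)) : ℕ :=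
  (((J ×ˢ S) ×ˢ (J ×ˢ S) ×ˢ (J ×ˢ S) ×ˢ (J ×ˢ S)).filter (fun x =>
    x.1.2 + x.2.1.2 = x.2.2.1.2 + x.2.2.2.2 ∧
    x.1.1 • x.1.2 + x.2.1.1 • x.2.1.2 = x.2.2.1.1 • x.2.2.1.2 + x.2.2.2.1 • x.2.2.2.2)).card

/-- PLANE: plane sections of the sphere -/
def TaskPlane : Prop := ∀ d : ℕ, 3 ≤ d → ∀ (K : Type) [Field K] [Fintype K] [DecidableEq K],
  (2 : K) ≠ 0 → ∀ w : Fin d → K, w ≠ 0 → ∀ c : K,
    ((Sph d K).filter (fun a => ∑ i, w i * a i = c)).card ≤ 3 * Fintype.card K ^ (d - 2)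

/-- SPHERE: number of points of the sphere -/
def TaskSphere : Prop := ∀ d : ℕ, 3 ≤ d → ∀ (K : Type) [Field K] [Fintype K] [DecidableEq K],
  (2 : K) ≠ 0 → 5 ≤ Fintype.card K → ∀ i : K, i ^ 2 = -1 →
    (Sph d K).card ≤ 2 * Fintype.card K ^ (d - 1) ∧ Fintype.card K ^ (d - 1) ≤ 4 * (Sph d K).card

/-- ENERGY -/
def TaskEnergy : Prop := TaskPlane → ∀ d : ℕ, 3 ≤ d →
  ∀ (K : Type) [Field K] [Fintype K] [DecidableEq K], (2 : K) ≠ 0 →
  (Sph d K).card ≤ 2 * Fintype.card K ^ (d - 1) → ∀ J : Finset K,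
    Quad J (Sph d K) ≤ 100 * (J.card * Fintype.card K ^ (3 * d - 4) +
      J.card ^ 2 * Fintype.card K ^ (2 * d - 2) + J.card ^ 4 * Fintype.card K ^ (2 * d - 3))

/-- the union of dilated subfield spheres -/
def ESet {K F : Type} [Field K] [Fintype K] [DecidableEq K] [Field F] [DecidableEq F] [Algebra K F]
    (d : ℕ) (θ : F) (J : Finset K) : Finset (Fin d → F) :=
  (J ×ˢ Sph d K).image (fun x => fun i => (θ + algebraMap K F x.1) * algebraMap K F (x.2 i))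

/-- TRANSFER -/
def TaskTransfer : Prop := ∀ (d : ℕ) (K F : Type) [Field K] [Fintype K] [DecidableEq K]
  [Field F] [DecidableEq F] [Algebra K F] (θ : F), θ ∉ Set.range (algebraMap K F) →
  ∀ J : Finset K,
    (ESet d θ J).card = J.card * (Sph d K).card ∧
    energy (ESet d θ J) ≤ Quad J (Sph d K) ∧
    (distSet (ESet d θ J)).card ≤ J.card ^ 2 * Fintype.card K

/-- the examples, for every prime `p ≡ 1 mod 4` and `n ≤ p` -/
def Family : Prop := ∀ d : ℕ, 3 ≤ d → ∀ p : ℕ, p.Prime → p % 4 = 1 → ∀ n : ℕ, n ≤ p →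
  ∃ (F : Type) (_ : Field F) (_ : Fintype F) (_ : DecidableEq F) (E : Finset (Fin d → F)),
    (2 : F) ≠ 0 ∧ Fintype.card F = p ^ 2 ∧
    n * p ^ (d - 1) ≤ 4 * E.card ∧
    energy E ≤ 100 * (n * p ^ (3 * d - 4) + n ^ 2 * p ^ (2 * d - 2) + n ^ 4 * p ^ (2 * d - 3)) ∧
    (distSet E).card ≤ n ^ 2 * p

/-- ASYMPTOTICS -/
def TaskAsym : Prop := Family → ∀ d : ℕ, 3 ≤ d → ∀ β : ℝ, 0 < β → β < 1 / 2 →
  ∀ α : ℝ, Good d ((d + 3 * β) / (4 * (d - 1 + β))) α → (d - 1 + β) / 2 ≤ α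

end Pool.H654R5
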