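import Mathlib
import Pool.Agent.H654R5.Stmts

set_option autoImplicit false

namespace Pool.H654R5

set_option maxHeartbeats 4000000 in
theorem task_Asym : TaskAsym := by
  intro hFam d hd β hβ0 hβ1 α hgood
  by_contra hlt
  have hlt' : α < ((d : ℝ) - 1 + β) / 2 := not_le.1 hlt
  have hdR : (3 : ℝ) ≤ d := by exact_mod_cast hd
  obtain ⟨C, c, hC, hc, H⟩ := hgood (300 * 8 ^ 4) (by norm_num)
  have e1 : ∀ᶠ x : ℝ in Filter.atTop, x ^ (-(((d : ℝ) - 1 + β) - 2 * α)) < 1 / (8 * C) :=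
    (tendsto_rpow_neg_atTop (by linarith)).eventually_lt_const (by positivity)
  have e2 : ∀ᶠ x : ℝ in Filter.atTop, x ^ (-(1 - 2 * β)) < c :=
    (tendsto_rpow_neg_atTop (by linarith)).eventually_lt_const hc
  obtain ⟨x0, hx0⟩ := Filter.eventually_atTop.1 (e1.and e2)
  obtain ⟨p, hp, hpn, hpm⟩ := Nat.exists_prime_gt_modEq_one (k := 4) (⌈x0⌉₊ + 2) (by norm_num)
  have hp4 : p % 4 = 1 := hpm
  obtain ⟨P, hP⟩ : ∃ P : ℝ, P = (p : ℝ) := ⟨_, rfl⟩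
  have hPx : x0 ≤ P := by
    rw [hP]
    exact (Nat.le_ceil x0).trans (by exact_mod_cast (by omega : ⌈x0⌉₊ ≤ p))
  have hP1 : 1 ≤ P := by rw [hP]; exact_mod_cast hp.one_lt.le
  have hP0 : 0 < P := by linarith
  obtain ⟨h1, h2⟩ := hx0 P hPx
  obtain ⟨n, hn⟩ : ∃ n : ℕ, n = ⌊P ^ β⌋₊ := ⟨_, rfl⟩
  have hPβ : 1 ≤ P ^ β := Real.one_le_rpow hP1 hβ0.le
  have hn1 : (n : ℝ) ≤ P ^ β := by rw [hn]; exact Nat.floor_le (by positivity)
  have hn2 : P ^ β / 2 ≤ n := by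
    have h3 : P ^ β < n + 1 := by rw [hn]; exact Nat.lt_floor_add_one _
    have h5 : 1 ≤ n := by rw [hn]; exact Nat.le_floor (by exact_mod_cast hPβ)
    have h5' : (1 : ℝ) ≤ n := by exact_mod_cast h5
    linarith
  have hnp : n ≤ p := by
    have h3 : (n : ℝ) ≤ p := by
      refine hn1.trans ?_
      rw [← hP]
      calc P ^ β ≤ P ^ (1 : ℝ) := Real.rpow_le_rpow_of_exponent_le hP1 (by linarith)
        _ = P := Real.rpow_one P
    exact_mod_cast h3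
  obtain ⟨F, iF, iFt, iD, E, hF2, hcard, hE1, hE2, hE3⟩ := hFam d hd p hp hp4 n hnp
  have HH := @H F iF iFt iD hF2 E
  have hcardR : (Fintype.card F : ℝ) = P ^ 2 := by rw [hcard, hP]; push_cast; ring
  have hn0 : (0 : ℝ) ≤ n := Nat.cast_nonneg n
  -- exponents
  have k1 : P ^ (d - 1) = P ^ ((d : ℝ) - 1) := by
    rw [← Real.rpow_natCast, Nat.cast_sub (by omega)]; norm_num
  have k2 : P ^ (3 * d - 4) = P ^ (3 * (d : ℝ) - 4) := by
    rw [← Real.rpow_natCast, Nat.cast_sub (by omega)]; norm_num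
  have k3 : P ^ (2 * d - 2) = P ^ (2 * (d : ℝ) - 2) := by
    rw [← Real.rpow_natCast, Nat.cast_sub (by omega)]; norm_num
  have k4 : P ^ (2 * d - 3) = P ^ (2 * (d : ℝ) - 3) := by
    rw [← Real.rpow_natCast, Nat.cast_sub (by omega)]; norm_num
  -- size
  have hE1' : (n : ℝ) * P ^ (d - 1) ≤ 4 * E.card := by rw [hP]; exact_mod_cast hE1
  have hsize : P ^ ((d : ℝ) - 1 + β) / 8 ≤ E.card := by
    rw [Real.rpow_add hP0, ← k1]
    have h3 : 0 ≤ P ^ (d - 1) := by positivity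
    nlinarith [mul_le_mul_of_nonneg_right hn2 h3]
  -- energy
  have hE2' : (energy E : ℝ) ≤ 100 * (n * P ^ (3 * d - 4) + n ^ 2 * P ^ (2 * d - 2) +
      n ^ 4 * P ^ (2 * d - 3)) := by rw [hP]; exact_mod_cast hE2
  have b1 : (n : ℝ) * P ^ (3 * d - 4) ≤ P ^ (3 * (d : ℝ) - 4 + β) := by
    rw [Real.rpow_add hP0, k2, mul_comm]
    exact mul_le_mul_of_nonneg_left hn1 (by positivity)
  have b2 : (n : ℝ) ^ 2 * P ^ (2 * d - 2) ≤ P ^ (3 * (d : ℝ) - 4 + β) := by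
    have h3 : (n : ℝ) ^ 2 ≤ P ^ (β * 2) := by
      rw [Real.rpow_mul hP0.le]
      calc (n : ℝ) ^ 2 ≤ (P ^ β) ^ 2 := pow_le_pow_left₀ hn0 hn1 2
        _ = (P ^ β) ^ (2 : ℝ) := by norm_cast
    calc (n : ℝ) ^ 2 * P ^ (2 * d - 2) ≤ P ^ (β * 2) * P ^ (2 * (d : ℝ) - 2) := by
          rw [k3]; exact mul_le_mul_of_nonneg_right h3 (by positivity)
      _ = P ^ (β * 2 + (2 * (d : ℝ) - 2)) := (Real.rpow_add hP0 _ _).symm
      _ ≤ P ^ (3 * (d : ℝ) - 4 + β) := Real.rpow_le_rpow_of_exponent_le hP1 (by linarith)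
  have b3 : (n : ℝ) ^ 4 * P ^ (2 * d - 3) ≤ P ^ (3 * (d : ℝ) - 4 + β) := by
    have h3 : (n : ℝ) ^ 4 ≤ P ^ (β * 4) := by
      rw [Real.rpow_mul hP0.le]
      calc (n : ℝ) ^ 4 ≤ (P ^ β) ^ 4 := pow_le_pow_left₀ hn0 hn1 4
        _ = (P ^ β) ^ (4 : ℝ) := by norm_cast
    calc (n : ℝ) ^ 4 * P ^ (2 * d - 3) ≤ P ^ (β * 4) * P ^ (2 * (d : ℝ) - 3) := by
          rw [k4]; exact mul_le_mul_of_nonneg_right h3 (by positivity)
      _ = P ^ (β * 4 + (2 * (d : ℝ) - 3)) := (Real.rpow_add hP0 _ _).symm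
      _ ≤ P ^ (3 * (d : ℝ) - 4 + β) := Real.rpow_le_rpow_of_exponent_le hP1 (by linarith)
  have hen : (energy E : ℝ) ≤ 300 * P ^ (3 * (d : ℝ) - 4 + β) := by linarith
  -- the power of the size
  have hApos : 0 < (d : ℝ) - 1 + β := by linarith
  have hexp : 4 - 4 * (((d : ℝ) + 3 * β) / (4 * (d - 1 + β))) =
      (3 * (d : ℝ) - 4 + β) / ((d : ℝ) - 1 + β) := by
    field_simp
    ring
  have hq0 : 0 ≤ (3 * (d : ℝ) - 4 + β) / ((d : ℝ) - 1 + β) :=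
    div_nonneg (by linarith) hApos.le
  have hq4 : (3 * (d : ℝ) - 4 + β) / ((d : ℝ) - 1 + β) ≤ 4 := by
    rw [div_le_iff₀ hApos]; linarith
  have hpow : P ^ (3 * (d : ℝ) - 4 + β) ≤
      8 ^ 4 * (E.card : ℝ) ^ (4 - 4 * (((d : ℝ) + 3 * β) / (4 * (d - 1 + β)))) := by
    rw [hexp]
    have h3 : (P ^ ((d : ℝ) - 1 + β) / 8) ^ ((3 * (d : ℝ) - 4 + β) / ((d : ℝ) - 1 + β)) ≤
        (E.card : ℝ) ^ ((3 * (d : ℝ) - 4 + β) / ((d : ℝ) - 1 + β)) :=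
      Real.rpow_le_rpow (by positivity) hsize hq0
    rw [Real.div_rpow (by positivity) (by norm_num), ← Real.rpow_mul hP0.le,
      mul_div_cancel₀ _ hApos.ne'] at h3
    have h4 : (8 : ℝ) ^ ((3 * (d : ℝ) - 4 + β) / ((d : ℝ) - 1 + β)) ≤ 8 ^ 4 := by
      calc (8 : ℝ) ^ ((3 * (d : ℝ) - 4 + β) / ((d : ℝ) - 1 + β)) ≤ (8 : ℝ) ^ (4 : ℝ) :=
            Real.rpow_le_rpow_of_exponent_le (by norm_num) hq4
        _ = 8 ^ 4 := by norm_cast
    have h5 : 0 < (8 : ℝ) ^ ((3 * (d : ℝ) - 4 + β) / ((d : ℝ) - 1 + β)) := by positivity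
    have h6 : 0 ≤ (E.card : ℝ) ^ ((3 * (d : ℝ) - 4 + β) / ((d : ℝ) - 1 + β)) := by positivity
    rw [div_le_iff₀ h5] at h3
    calc P ^ (3 * (d : ℝ) - 4 + β) ≤ _ := h3
      _ ≤ (E.card : ℝ) ^ ((3 * (d : ℝ) - 4 + β) / ((d : ℝ) - 1 + β)) * 8 ^ 4 :=
          mul_le_mul_of_nonneg_left h4 h6
      _ = _ := mul_comm _ _
  have hconc := HH (by
      have h3 : 0 ≤ (Fintype.card F : ℝ) ^ (-(d : ℝ)) * (E.card : ℝ) ^ 4 := by positivity
      nlinarith) (by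
      refine le_trans ?_ hsize
      rw [hcardR, ← Real.rpow_natCast, ← Real.rpow_mul hP0.le]
      have h3 : P ^ (((2 : ℕ) : ℝ) * α) = P ^ ((d : ℝ) - 1 + β) *
          P ^ (-(((d : ℝ) - 1 + β) - 2 * α)) := by
        rw [← Real.rpow_add hP0]
        congr 1
        push_cast
        ring
      rw [h3]
      have h4 : 0 < P ^ ((d : ℝ) - 1 + β) := by positivity
      have h5 : C * P ^ (-(((d : ℝ) - 1 + β) - 2 * α)) ≤ 1 / 8 := by
        have := mul_le_mul_of_nonneg_left h1.le hC.le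
        refine this.trans (le_of_eq ?_)
        field_simp
      nlinarith [mul_le_mul_of_nonneg_left h5 h4.le])
  -- contradiction
  have hE3' : ((distSet E).card : ℝ) ≤ (n : ℝ) ^ 2 * P := by rw [hP]; exact_mod_cast hE3
  have h3 : (n : ℝ) ^ 2 ≤ P ^ (β * 2) := by
    rw [Real.rpow_mul hP0.le]
    calc (n : ℝ) ^ 2 ≤ (P ^ β) ^ 2 := pow_le_pow_left₀ hn0 hn1 2
      _ = (P ^ β) ^ (2 : ℝ) := by norm_cast
  have h4 : P ^ (β * 2) * P = P ^ (-(1 - 2 * β)) * P ^ 2 := by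
    have h5 : P ^ (β * 2) * P = P ^ (β * 2 + 1) := by rw [Real.rpow_add hP0, Real.rpow_one]
    have h6 : P ^ (-(1 - 2 * β)) * P ^ 2 = P ^ (-(1 - 2 * β) + ((2 : ℕ) : ℝ)) := by
      rw [Real.rpow_add hP0, Real.rpow_natCast]
    rw [h5, h6]
    congr 1
    push_cast
    ring
  rw [hcardR] at hconc
  have h7 : c * P ^ 2 ≤ P ^ (-(1 - 2 * β)) * P ^ 2 := by
    rw [← h4]
    exact hconc.trans (hE3'.trans (mul_le_mul_of_nonneg_right h3 hP0.le))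
  have h8 : 0 < P ^ 2 := by positivity
  have h9 := le_of_mul_le_mul_right h7 h8
  linarith

end Pool.H654R5
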