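import Mathlib
import Pool.Agent.H654R5.Stmts

set_option autoImplicit false

open Finset

namespace Pool.H654R5

theorem sphere_up (m : ℕ) (K : Type) [Field K] [Fintype K] [DecidableEq K] (c : K) :
    (univ.filter (fun a : Fin (m + 1) → K => ∑ i, a i ^ 2 = c)).card ≤ 2 * Fintype.card K ^ m := by
  classical
  set S := univ.filter (fun a : Fin (m + 1) → K => ∑ i, a i ^ 2 = c) with hS
  have h := card_le_mul_card_image (f := fun a : Fin (m + 1) → K => (fun j : Fin m => a j.succ)) S 2
    (by
      intro b hb
      rw [mem_image] at hb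
      obtain ⟨z, hz, hzb⟩ := hb
      have hz2 : ∑ i, z i ^ 2 = c := by
        rw [hS, mem_filter] at hz
        exact hz.2
      rw [Fin.sum_univ_succ] at hz2
      refine (card_le_card (t := {z, (Fin.cons (-z 0) b : Fin (m + 1) → K)}) ?_).trans card_le_two
      intro x hx
      rw [mem_filter] at hx
      obtain ⟨hx1, hx2⟩ := hx
      have hx3 : ∑ i, x i ^ 2 = c := by
        rw [hS, mem_filter] at hx1
        exact hx1.2
      rw [Fin.sum_univ_succ] at hx3
      have hxb : ∀ j : Fin m, x j.succ = b j := fun j => congrFun hx2 j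
      have hzb' : ∀ j : Fin m, z j.succ = b j := fun j => congrFun hzb j
      have h1 : x 0 ^ 2 = z 0 ^ 2 := by
        simp only [hxb] at hx3
        simp only [hzb'] at hz2
        exact add_right_cancel (hx3.trans hz2.symm)
      rw [mem_insert, mem_singleton]
      rcases sq_eq_sq_iff_eq_or_eq_neg.1 h1 with h2 | h2
      · left
        funext j
        refine Fin.cases h2 (fun j => ?_) j
        rw [hxb, hzb']
      · right
        funext j
        refine Fin.cases ?_ (fun j => ?_) j
        · rw [Fin.cons_zero]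
          exact h2
        · rw [Fin.cons_succ]
          exact hxb j)
  refine h.trans (Nat.mul_le_mul_left _ ?_)
  refine (card_le_univ _).trans ?_
  simp

theorem sphere_low (m : ℕ) (K : Type) [Field K] [Fintype K] [DecidableEq K] (h2 : (2 : K) ≠ 0)
    (i : K) (hi : i ^ 2 = -1) :
    (Fintype.card K ^ (m + 1) - 2 * Fintype.card K ^ m) * (Fintype.card K - 1) ≤
      (Sph (m + 3) K).card := by
  classical
  set Z := univ.filter (fun a : Fin (m + 1) → K => ∑ i, a i ^ 2 = 1) with hZ
  have hZc : Z.card ≤ 2 * Fintype.card K ^ m := sphere_up m K 1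
  have hi0 : i ≠ 0 := by
    rintro rfl
    norm_num at hi
  set T : Finset ((Fin (m + 1) → K) × K) := Zᶜ ×ˢ (univ.erase 0) with hT
  have hTc : (Fintype.card K ^ (m + 1) - 2 * Fintype.card K ^ m) * (Fintype.card K - 1) ≤
      T.card := by
    rw [hT, card_product, card_erase_of_mem (mem_univ _), card_univ, card_compl]
    refine Nat.mul_le_mul_right _ ?_
    have h3 : Fintype.card (Fin (m + 1) → K) = Fintype.card K ^ (m + 1) := by simp
    rw [h3]
    omega
  refine hTc.trans ?_
  let r : (Fin (m + 1) → K) → K := fun b => 1 - ∑ j, b j ^ 2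
  let g : (Fin (m + 1) → K) × K → (Fin (m + 3) → K) := fun x =>
    Fin.cons ((x.2 + r x.1 / x.2) / 2) (Fin.cons ((x.2 - r x.1 / x.2) / (2 * i)) x.1 : Fin (m + 2) → K)
  have hi2 : i * i = -1 := by rw [← sq]; exact hi
  apply card_le_card_of_injOn g
  · rintro ⟨b, u⟩ hx
    have hx' : (b, u) ∈ T := hx
    rw [hT, mem_product] at hx'
    have hu : u ≠ 0 := (mem_erase.1 hx'.2).1
    have hgoal : g (b, u) ∈ Sph (m + 3) K := by
      unfold Sph
      rw [mem_filter]
      refine ⟨mem_univ _, ?_⟩
      rw [Fin.sum_univ_succ, Fin.sum_univ_succ]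
      simp only [g, Fin.cons_zero, Fin.cons_succ]
      have h4 : ((u + r b / u) / 2) ^ 2 + ((u - r b / u) / (2 * i)) ^ 2 = r b := by
        have h5 : ((u - r b / u) / (2 * i)) ^ 2 = -((u - r b / u) ^ 2 / 4) := by
          rw [div_pow, mul_pow, hi, mul_neg_one, div_neg]
          norm_num
        rw [h5]
        have h44 : (4 : K) ≠ 0 := by
          have : (4 : K) = 2 * 2 := by norm_num
          rw [this]
          exact mul_ne_zero h2 h2
        field_simp
        ring
      rw [← add_assoc, h4]
      simp only [r]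
      ring
    exact hgoal
  · rintro ⟨b, u⟩ hx ⟨b', u'⟩ hx' hgg
    have hgg0 := congrFun hgg 0
    have hgg1 := congrFun hgg 1
    have hb : b = b' := by
      funext j
      have := congrFun hgg j.succ.succ
      simpa [g, Fin.cons_succ] using this
    subst hb
    have e0 : (u + r b / u) / 2 = (u' + r b / u') / 2 := by
      simpa only [g, Fin.cons_zero] using hgg0
    have e1 : (u - r b / u) / (2 * i) = (u' - r b / u') / (2 * i) := by
      have h6 : (1 : Fin (m + 3)) = Fin.succ 0 := rfl
      rw [h6] at hgg1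
      simpa only [g, Fin.cons_succ, Fin.cons_zero] using hgg1
    have f0 : u + r b / u = u' + r b / u' := by
      have := congrArg (fun z => z * 2) e0
      simpa only [div_mul_cancel₀ _ h2] using this
    have h2i : (2 * i : K) ≠ 0 := mul_ne_zero h2 hi0
    have f1 : u - r b / u = u' - r b / u' := by
      have := congrArg (fun z => z * (2 * i)) e1
      simpa only [div_mul_cancel₀ _ h2i] using this
    have f2 : 2 * u = 2 * u' := by linear_combination f0 + f1
    have f3 : u = u' := mul_left_cancel₀ h2 f2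
    rw [f3]

theorem task_Sphere : TaskSphere := by
  intro d hd K _ _ _ h2 hq i hi
  obtain ⟨m, rfl⟩ : ∃ m, d = m + 3 := ⟨d - 3, by omega⟩
  constructor
  · exact sphere_up (m + 2) K 1
  · have h := sphere_low m K h2 i hi
    refine le_trans ?_ (Nat.mul_le_mul_left 4 h)
    clear h
    generalize Fintype.card K = q at hq ⊢
    obtain ⟨t, rfl⟩ : ∃ t, q = t + 5 := ⟨q - 5, by omega⟩
    have h3 : (t + 5) ^ (m + 1) - 2 * (t + 5) ^ m = (t + 5) ^ m * (t + 3) := by
      have : (t + 5) ^ (m + 1) = (t + 5) ^ m * (t + 3) + 2 * (t + 5) ^ m := by ring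
      omega
    rw [h3, show t + 5 - 1 = t + 4 by omega, show m + 3 - 1 = m + 2 by omega]
    have h4 : (t + 5) ^ (m + 2) = (t + 5) ^ m * ((t + 5) * (t + 5)) := by ring
    rw [h4]
    calc (t + 5) ^ m * ((t + 5) * (t + 5)) ≤ (t + 5) ^ m * (4 * ((t + 3) * (t + 4))) :=
          Nat.mul_le_mul_left _ (by nlinarith)
      _ = 4 * ((t + 5) ^ m * (t + 3) * (t + 4)) := by ring

end Pool.H654R5
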