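import Pool.Agent.H654R5.Stmts

set_option autoImplicit false

open Finset

namespace Pool.H654R5

theorem tr_lin {K F : Type} [Field K] [Field F] [Algebra K F] {θ : F}
    (hθ : θ ∉ Set.range (algebraMap K F)) {u v : K}
    (h : θ * algebraMap K F u + algebraMap K F v = 0) : u = 0 ∧ v = 0 := by
  have hu : u = 0 := by
    by_contra hu
    apply hθ
    refine ⟨-v / u, ?_⟩
    have hu' : algebraMap K F u ≠ 0 := by
      rw [Ne, map_eq_zero]; exact hu
    rw [map_div₀, map_neg, div_eq_iff hu']
    linear_combination -h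
  refine ⟨hu, ?_⟩
  rw [hu, map_zero, mul_zero, zero_add] at h
  exact (map_eq_zero _).1 h

def tr_phi {K F : Type} [Field K] [Field F] [Algebra K F] {d : ℕ} (θ : F)
    (x : K × (Fin d → K)) : Fin d → F :=
  fun i => (θ + algebraMap K F x.1) * algebraMap K F (x.2 i)

theorem task_Transfer : TaskTransfer := by
  intro d K F _ _ _ _ _ _ θ hθ J
  have hE : ESet d θ J = (J ×ˢ Sph d K).image (tr_phi (F := F) θ) := rfl
  have hsph : ∀ a : Fin d → K, a ∈ Sph d K ↔ ∑ i, a i ^ 2 = 1 := by
    intro a; simp [Sph]
  refine ⟨?_, ?_, ?_⟩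
  · rw [hE, Finset.card_image_of_injOn, Finset.card_product]
    rintro ⟨j, a⟩ h1 ⟨j', a'⟩ h2 heq
    rw [Finset.mem_coe, Finset.mem_product] at h1 h2
    have hc : ∀ i, a i - a' i = 0 ∧ j * a i - j' * a' i = 0 := by
      intro i
      apply tr_lin hθ
      have := congrFun heq i
      simp only [tr_phi] at this
      simp only [map_sub, map_mul]
      linear_combination this
    have ha : a = a' := funext fun i => sub_eq_zero.1 (hc i).1
    subst ha
    have hne : ∃ i, a i ≠ 0 := by
      by_contra hcon
      push Not at hcon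
      have := (hsph a).1 h1.2
      simp [hcon] at this
    obtain ⟨i, hi⟩ := hne
    have hj : j = j' := by
      have := (hc i).2
      have h3 : (j - j') * a i = 0 := by linear_combination this
      rcases mul_eq_zero.1 h3 with h4 | h4
      · exact sub_eq_zero.1 h4
      · exact absurd h4 hi
    rw [hj]
  · rw [hE]
    unfold energy Quad
    refine le_trans (Finset.card_le_card (t := Finset.image
      (fun x : (K × (Fin d → K)) × (K × (Fin d → K)) × (K × (Fin d → K)) × (K × (Fin d → K)) =>
        (tr_phi (F := F) θ x.1, tr_phi (F := F) θ x.2.1, tr_phi (F := F) θ x.2.2.1,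
          tr_phi (F := F) θ x.2.2.2))
      (((J ×ˢ Sph d K) ×ˢ (J ×ˢ Sph d K) ×ˢ (J ×ˢ Sph d K) ×ˢ (J ×ˢ Sph d K)).filter (fun x =>
      x.1.2 + x.2.1.2 = x.2.2.1.2 + x.2.2.2.2 ∧
      x.1.1 • x.1.2 + x.2.1.1 • x.2.1.2 = x.2.2.1.1 • x.2.2.1.2 + x.2.2.2.1 • x.2.2.2.2))) ?_)
      Finset.card_image_le
    rintro ⟨e1, e2, e3, e4⟩ he
    rw [Finset.mem_filter, Finset.mem_product, Finset.mem_product, Finset.mem_product] at he
    obtain ⟨⟨m1, m2, m3, m4⟩, heq⟩ := he
    simp only at m1 m2 m3 m4 heq
    obtain ⟨x1, hx1, rfl⟩ := Finset.mem_image.1 m1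
    obtain ⟨x2, hx2, rfl⟩ := Finset.mem_image.1 m2
    obtain ⟨x3, hx3, rfl⟩ := Finset.mem_image.1 m3
    obtain ⟨x4, hx4, rfl⟩ := Finset.mem_image.1 m4
    have hc : ∀ i, x1.2 i + x2.2 i - x3.2 i - x4.2 i = 0 ∧
        x1.1 * x1.2 i + x2.1 * x2.2 i - x3.1 * x3.2 i - x4.1 * x4.2 i = 0 := by
      intro i
      apply tr_lin hθ
      have := congrFun heq i
      simp only [tr_phi, Pi.add_apply] at this
      simp only [map_sub, map_mul, map_add]
      linear_combination this
    rw [Finset.mem_image]
    refine ⟨(x1, x2, x3, x4), ?_, rfl⟩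
    rw [Finset.mem_filter]
    refine ⟨Finset.mk_mem_product hx1 (Finset.mk_mem_product hx2
      (Finset.mk_mem_product hx3 hx4)), ?_, ?_⟩
    · funext i
      simp only [Pi.add_apply]
      linear_combination (hc i).1
    · funext i
      simp only [Pi.add_apply, Pi.smul_apply, smul_eq_mul]
      linear_combination (hc i).2
  · have hsub : distSet (ESet d θ J) ⊆ (J ×ˢ J ×ˢ (Finset.univ : Finset K)).image
        (fun y => (θ + algebraMap K F y.1) ^ 2 + (θ + algebraMap K F y.2.1) ^ 2 -
          2 * (θ + algebraMap K F y.1) * (θ + algebraMap K F y.2.1) * algebraMap K F y.2.2) := by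
      intro z hz
      unfold distSet at hz
      rw [Finset.mem_image] at hz
      obtain ⟨⟨e, e'⟩, hee, rfl⟩ := hz
      rw [Finset.mem_product, hE] at hee
      obtain ⟨x, hx, hxe⟩ := Finset.mem_image.1 hee.1
      obtain ⟨x', hx', hxe'⟩ := Finset.mem_image.1 hee.2
      rw [Finset.mem_product] at hx hx'
      simp only at hxe hxe'
      subst hxe
      subst hxe'
      rw [Finset.mem_image]
      refine ⟨(x.1, x'.1, ∑ i, x.2 i * x'.2 i), ?_, ?_⟩
      · rw [Finset.mem_product, Finset.mem_product]
        exact ⟨hx.1, hx'.1, Finset.mem_univ _⟩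
      · have s1 : ∑ i, algebraMap K F (x.2 i) ^ 2 = 1 := by
          have := congrArg (algebraMap K F) ((hsph x.2).1 hx.2)
          simpa [map_sum] using this
        have s2 : ∑ i, algebraMap K F (x'.2 i) ^ 2 = 1 := by
          have := congrArg (algebraMap K F) ((hsph x'.2).1 hx'.2)
          simpa [map_sum] using this
        have s3 : algebraMap K F (∑ i, x.2 i * x'.2 i) =
            ∑ i, algebraMap K F (x.2 i) * algebraMap K F (x'.2 i) := by
          simp [map_sum]
        simp only
        rw [s3]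
        have hexp : ∀ i, (tr_phi (F := F) θ x i - tr_phi (F := F) θ x' i) ^ 2 =
            (θ + algebraMap K F x.1) ^ 2 * algebraMap K F (x.2 i) ^ 2 +
            (θ + algebraMap K F x'.1) ^ 2 * algebraMap K F (x'.2 i) ^ 2 -
            2 * (θ + algebraMap K F x.1) * (θ + algebraMap K F x'.1) *
              (algebraMap K F (x.2 i) * algebraMap K F (x'.2 i)) := by
          intro i
          unfold tr_phi
          ring
        simp_rw [hexp]
        rw [Finset.sum_sub_distrib, Finset.sum_add_distrib, ← Finset.mul_sum, ← Finset.mul_sum,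
          ← Finset.mul_sum, s1, s2]
        ring
    refine (Finset.card_le_card hsub).trans (Finset.card_image_le.trans ?_)
    rw [Finset.card_product, Finset.card_product, Finset.card_univ]
    apply le_of_eq
    ring

end Pool.H654R5
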