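import Pool.Agent.H654R5.Asm
import Pool.Agent.H654R5.EnergyT
import Pool.Agent.H654R5.PlaneH133
import Pool.Agent.H654R5.T_Asym
import Pool.Agent.H654R5.T_Sphere
import Pool.Agent.H654R5.T_Transfer

set_option autoImplicit false

namespace Pool.H654R5

theorem task_Plane : TaskPlane := by
  intro d hd K _ _ _ h2 w hw c
  exact PlaneH133.plane3 d hd K h2 w hw c

theorem final_lower (d : ℕ) (hd : 3 ≤ d) (s : ℝ)
    (h1 : (d : ℝ) / (4 * (d - 1)) < s) (h2 : s < (2 * d + 3) / (4 * (2 * d - 1))) (α : ℝ)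
    (h : Good d s α) : (2 * (d : ℝ) - 3) / (2 * (3 - 4 * s)) ≤ α :=
  lower_of task_Asym (family_of task_Plane task_Sphere En.taskEnergy task_Transfer) d hd s h1 h2 α h

end Pool.H654R5
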