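import Pool.Agent.H654R5.Stmts

set_option autoImplicit false

open Finset

namespace Pool.H654R5

theorem family_of (hP : TaskPlane) (hS : TaskSphere) (hE : TaskEnergy) (hT : TaskTransfer) :
    Family := by
  intro d hd p hp hp4 n hn
  haveI : Fact p.Prime := ⟨hp⟩
  have hp5 : 5 ≤ p := by
    have h2 := hp.two_le
    by_contra h
    push Not at h
    interval_cases p
    · omega
    · omega
    · omega
  have hcK : Fintype.card (ZMod p) = p := ZMod.card p
  have h2K : (2 : ZMod p) ≠ 0 := by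
    intro h
    have h' : ((2 : ℕ) : ZMod p) = 0 := by exact_mod_cast h
    rw [ZMod.natCast_eq_zero_iff] at h'
    have := Nat.le_of_dvd (by norm_num) h'
    omega
  obtain ⟨i, hi⟩ : IsSquare (-1 : ZMod p) := by
    rw [ZMod.exists_sq_eq_neg_one_iff]
    omega
  have hi' : i ^ 2 = -1 := by rw [pow_two]; exact hi.symm
  letI : Fintype (GaloisField p 2) := Fintype.ofFinite _
  letI : DecidableEq (GaloisField p 2) := Classical.decEq _
  have hcF : Fintype.card (GaloisField p 2) = p ^ 2 := by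
    rw [← Nat.card_eq_fintype_card]
    exact GaloisField.card p 2 (by norm_num)
  obtain ⟨θ, hθ⟩ : ∃ θ : GaloisField p 2, θ ∉ Set.range (algebraMap (ZMod p) (GaloisField p 2)) := by
    by_contra hcon
    push Not at hcon
    have hsur : Function.Surjective (algebraMap (ZMod p) (GaloisField p 2)) := fun x => hcon x
    have := Fintype.card_le_of_surjective _ hsur
    rw [hcF, hcK] at this
    nlinarith
  obtain ⟨J, -, hJ⟩ := Finset.exists_subset_card_eq (s := (Finset.univ : Finset (ZMod p))) (n := n)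
    (by rw [Finset.card_univ, hcK]; exact hn)
  obtain ⟨hs1, hs2⟩ := hS d hd (ZMod p) h2K (by rw [hcK]; exact hp5) i hi'
  have he := hE hP d hd (ZMod p) h2K hs1 J
  obtain ⟨t1, t2, t3⟩ := hT d (ZMod p) (GaloisField p 2) θ hθ J
  rw [hcK] at hs1 hs2 he t3
  rw [hJ] at t1 he t3
  refine ⟨GaloisField p 2, inferInstance, inferInstance, inferInstance, ESet d θ J, ?_, hcF, ?_, ?_, t3⟩
  · intro h
    apply h2K
    have : (algebraMap (ZMod p) (GaloisField p 2)) 2 = 0 := by
      rw [map_ofNat]; exact h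
    exact (map_eq_zero _).mp this
  · rw [t1]
    calc n * p ^ (d - 1) ≤ n * (4 * (Sph d (ZMod p)).card) := Nat.mul_le_mul_left _ hs2
      _ = 4 * (n * (Sph d (ZMod p)).card) := by ring
  · exact t2.trans he

/-- the lower bound in terms of `s` -/
theorem lower_of (hA : TaskAsym) (hF : Family) (d : ℕ) (hd : 3 ≤ d) (s : ℝ)
    (h1 : (d : ℝ) / (4 * (d - 1)) < s) (h2 : s < (2 * d + 3) / (4 * (2 * d - 1))) (α : ℝ)
    (h : Good d s α) : (2 * (d : ℝ) - 3) / (2 * (3 - 4 * s)) ≤ α := by
  have hd3 : (3 : ℝ) ≤ d := by exact_mod_cast hd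
  have hs34 : 0 < 3 - 4 * s := by
    have : (2 * (d : ℝ) + 3) / (4 * (2 * d - 1)) ≤ 3 / 4 := by
      rw [div_le_div_iff₀ (by linarith) (by norm_num)]
      nlinarith
    linarith
  set β : ℝ := (4 * s * (d - 1) - d) / (3 - 4 * s) with hβ
  have hβ0 : 0 < β := by
    apply div_pos _ hs34
    rw [div_lt_iff₀ (by linarith)] at h1
    linarith
  have hβ1 : β < 1 / 2 := by
    rw [hβ, div_lt_iff₀ hs34]
    rw [lt_div_iff₀ (by linarith)] at h2
    nlinarith
  have hsβ : s = (d + 3 * β) / (4 * (d - 1 + β)) := by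
    have hne : (4 * ((d : ℝ) - 1 + β)) ≠ 0 := by
      have : 0 < 4 * ((d : ℝ) - 1 + β) := by linarith
      exact this.ne'
    rw [eq_div_iff hne]
    have : β * (3 - 4 * s) = 4 * s * (d - 1) - d := by
      rw [hβ, div_mul_cancel₀ _ hs34.ne']
    linarith
  have hval : ((d : ℝ) - 1 + β) / 2 = (2 * (d : ℝ) - 3) / (2 * (3 - 4 * s)) := by
    rw [hβ]
    field_simp
    ring
  rw [hsβ] at h
  have := hA hF d hd β hβ0 hβ1 α h
  rw [hval] at this
  exact this

/-- comparison with the conjectured value -/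
theorem compare (d : ℕ) (hd : 3 ≤ d) (s : ℝ) (h1 : 3 * ((d : ℝ) + 1) / (4 * (3 * d - 2)) < s)
    (h2 : s < (2 * d + 3) / (4 * (2 * d - 1))) :
    ((d : ℝ) + 1) / (8 * s) < (2 * (d : ℝ) - 3) / (2 * (3 - 4 * s)) := by
  have hd3 : (3 : ℝ) ≤ d := by exact_mod_cast hd
  have hs34 : 0 < 3 - 4 * s := by
    have : (2 * (d : ℝ) + 3) / (4 * (2 * d - 1)) ≤ 3 / 4 := by
      rw [div_le_div_iff₀ (by linarith) (by norm_num)]
      nlinarith
    linarith
  have hs0 : 0 < s := by
    refine lt_trans ?_ h1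
    apply div_pos <;> linarith
  rw [div_lt_div_iff₀ (by linarith) (by linarith)]
  rw [div_lt_iff₀ (by linarith)] at h1
  nlinarith

end Pool.H654R5
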